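import Pool.Agent.N245.DS.St

/-!
# Project DS (helper245): sign changes of exponential sums (helper543)
-/

set_option autoImplicit false

open Finset

namespace Pool.Agent.N543.DS

/-- an exponential sum -/
noncomputable def es {ι : Type} (I : Finset ι) (c b : ι → ℝ) (t : ℝ) : ℝ :=
  ∑ i ∈ I, c i * Real.exp (b i * t)

theorem es_deriv {ι : Type} (I : Finset ι) (c b : ι → ℝ) (t : ℝ) :
    HasDerivAt (es I c b) (∑ i ∈ I, c i * b i * Real.exp (b i * t)) t := by
  unfold es
  have h : ∀ i ∈ I, HasDerivAt (fun t => c i * Real.exp (b i * t))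
      (c i * b i * Real.exp (b i * t)) t := by
    intro i _
    have h1 : HasDerivAt (fun t : ℝ => b i * t) (b i) t := by
      simpa using (hasDerivAt_id t).const_mul (b i)
    have h2 := (h1.exp).const_mul (c i)
    have e : c i * (Real.exp (b i * t) * b i) = c i * b i * Real.exp (b i * t) := by ring
    rw [e] at h2
    exact h2
  have h3 := HasDerivAt.fun_sum h
  exact h3

/-- the number of zeros of an exponential sum -/
theorem zeros {ι : Type} [DecidableEq ι] (N : ℕ) : ∀ (I : Finset ι), I.card = N → 0 < N →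
    ∀ (c b : ι → ℝ), (∀ i ∈ I, c i ≠ 0) → Set.InjOn b I → ∀ Z : Finset ℝ,
    (∀ z ∈ Z, es I c b z = 0) → Z.card + 1 ≤ N := by
  induction N with
  | zero => intro I _ h; exact absurd h (lt_irrefl 0)
  | succ N ih =>
    intro I hI _ c b hc hb Z hZ
    rcases Nat.eq_zero_or_pos N with hN | hN
    · subst hN
      obtain ⟨i, rfl⟩ := Finset.card_eq_one.1 hI
      have h1 : Z = ∅ := by
        rw [Finset.eq_empty_iff_forall_notMem]
        intro z hz
        have h2 := hZ z hz
        unfold es at h2
        rw [Finset.sum_singleton] at h2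
        exact mul_ne_zero (hc i (Finset.mem_singleton_self i)) (Real.exp_ne_zero _) h2
      rw [h1]
      simp
    · obtain ⟨i₀, hi₀⟩ := Finset.card_pos.1 (by omega : 0 < I.card)
      -- divide by the exponential of index `i₀`
      have hg : ∀ t, es I c (fun i => b i - b i₀) t = es I c b t * Real.exp (-(b i₀ * t)) := by
        intro t
        unfold es
        rw [Finset.sum_mul]
        refine Finset.sum_congr rfl fun i _ => ?_
        rw [mul_assoc, ← Real.exp_add]
        congr 2
        ring
      have hz : ∀ z ∈ Z, es I c (fun i => b i - b i₀) z = 0 := by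
        intro z h
        rw [hg, hZ z h, zero_mul]
      -- the derivative
      have hd : ∀ t, HasDerivAt (es I c (fun i => b i - b i₀))
          (es (I.erase i₀) (fun i => c i * (b i - b i₀)) (fun i => b i - b i₀) t) t := by
        intro t
        have h1 := es_deriv I c (fun i => b i - b i₀) t
        have h2 : ∑ i ∈ I, c i * (b i - b i₀) * Real.exp ((b i - b i₀) * t) =
            es (I.erase i₀) (fun i => c i * (b i - b i₀)) (fun i => b i - b i₀) t := by
          unfold es
          rw [← Finset.add_sum_erase I _ hi₀, sub_self, mul_zero, zero_mul, zero_add]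
        rw [← h2]
        exact h1
      have hrolle : ∀ x y : ℝ, ∃ w : ℝ, x ∈ Z → y ∈ Z → x < y →
          (x < w ∧ w < y) ∧
          es (I.erase i₀) (fun i => c i * (b i - b i₀)) (fun i => b i - b i₀) w = 0 := by
        intro x y
        by_cases h : x ∈ Z ∧ y ∈ Z ∧ x < y
        · obtain ⟨hx, hy, hxy⟩ := h
          obtain ⟨w, hw, hw0⟩ := exists_hasDerivAt_eq_zero (f := es I c (fun i => b i - b i₀))
            (f' := es (I.erase i₀) (fun i => c i * (b i - b i₀)) (fun i => b i - b i₀)) hxy
            (fun t _ => (hd t).continuousAt.continuousWithinAt) (by rw [hz x hx, hz y hy])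
            (fun t _ => hd t)
          exact ⟨w, fun _ _ _ => ⟨hw, hw0⟩⟩
        · exact ⟨0, fun hx hy hxy => absurd ⟨hx, hy, hxy⟩ h⟩
      choose w hw using hrolle
      have hT := ih (I.erase i₀) (by rw [Finset.card_erase_of_mem hi₀, hI]; rfl) hN
        (fun i => c i * (b i - b i₀)) (fun i => b i - b i₀)
        (fun i hi => by
          have h1 := Finset.mem_of_mem_erase hi
          have h2 := Finset.ne_of_mem_erase hi
          exact mul_ne_zero (hc i h1) (sub_ne_zero.2 fun h => h2 (hb h1 hi₀ h)))
        (fun i hi j hj h => by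
          have h1 : i ∈ I := Finset.mem_of_mem_erase hi
          have h2 : j ∈ I := Finset.mem_of_mem_erase hj
          simp only [sub_left_inj] at h
          exact hb h1 h2 h)
        (((Z ×ˢ Z).filter fun p => p.1 < p.2).image fun p => w p.1 p.2)
        (by
          intro z hz'
          rw [Finset.mem_image] at hz'
          obtain ⟨p, hp, rfl⟩ := hz'
          rw [Finset.mem_filter, Finset.mem_product] at hp
          exact (hw p.1 p.2 hp.1.1 hp.1.2 hp.2).2)
      have hle : Z.card ≤ (((Z ×ˢ Z).filter fun p => p.1 < p.2).image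
          fun p => w p.1 p.2).card + 1 := by
        refine Finset.card_le_of_interleaved fun x hx y hy hxy _ => ?_
        refine ⟨w x y, ?_, (hw x y hx hy hxy).1.1, (hw x y hx hy hxy).1.2⟩
        rw [Finset.mem_image]
        refine ⟨(x, y), ?_, rfl⟩
        rw [Finset.mem_filter, Finset.mem_product]
        exact ⟨⟨hx, hy⟩, hxy⟩
      omega

theorem desc : Pool.Agent.N245.DS.S_DESC := by
  classical
  intro m c l hl hl0 hc S hS
  obtain ⟨I, hI⟩ : ∃ I : Finset (Fin m), I = univ.filter fun i => c i ≠ 0 := ⟨_, rfl⟩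
  obtain ⟨i₁, hi₁⟩ := hc
  have hIpos : 0 < I.card := by
    refine Finset.card_pos.2 ⟨i₁, ?_⟩
    rw [hI, Finset.mem_filter]
    exact ⟨Finset.mem_univ _, hi₁⟩
  have hIm : I.card ≤ m := by
    rw [hI]
    refine (Finset.card_filter_le _ _).trans ?_
    rw [Finset.card_univ, Fintype.card_fin]
  obtain ⟨b, hb⟩ : ∃ b : Fin m → ℝ, b = fun i => Real.log (l i) := ⟨_, rfl⟩
  have hbi : Set.InjOn b I := by
    intro i _ j _ h
    rw [hb] at h
    exact hl (Real.log_injOn_pos (Set.mem_Ioi.2 (hl0 i)) (Set.mem_Ioi.2 (hl0 j)) h)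
  have hval : ∀ n : ℕ, ∑ i, c i * l i ^ n = es I c b n := by
    intro n
    unfold es
    rw [hI, Finset.sum_filter]
    refine Finset.sum_congr rfl fun i _ => ?_
    by_cases h : c i = 0
    · rw [h]
      simp
    · rw [if_pos h, hb]
      simp only
      rw [mul_comm (Real.log (l i)) (n : ℝ), Real.exp_nat_mul, Real.exp_log (hl0 i)]
  have hcont : Continuous (es I c b) :=
    continuous_iff_continuousAt.2 fun t => (es_deriv I c b t).continuousAt
  have hz : ∀ n : ℕ, ∃ x : ℝ, n ∈ S → ((n : ℝ) ≤ x ∧ x ≤ n + 1) ∧ es I c b x = 0 := by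
    intro n
    by_cases hn : n ∈ S
    · have h1 := hS n hn
      rw [hval, hval] at h1
      push_cast at h1
      have hle : (n : ℝ) ≤ n + 1 := by linarith
      rcases le_total (es I c b n) 0 with h2 | h2
      · rcases le_total 0 (es I c b (n + 1)) with h3 | h3
        · obtain ⟨x, hx, hx0⟩ := intermediate_value_Icc hle hcont.continuousOn
            (Set.mem_Icc.2 ⟨h2, h3⟩)
          exact ⟨x, fun _ => ⟨hx, hx0⟩⟩
        · rcases eq_or_lt_of_le h2 with h4 | h4
          · exact ⟨n, fun _ => ⟨⟨le_refl _, hle⟩, h4⟩⟩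
          · have h5 : es I c b (n + 1) = 0 := by
              by_contra h6
              have h7 : es I c b (n + 1) < 0 := lt_of_le_of_ne h3 h6
              exact absurd h1 (not_le.2 (mul_pos_of_neg_of_neg h4 h7))
            exact ⟨n + 1, fun _ => ⟨⟨hle, le_refl _⟩, h5⟩⟩
      · rcases le_total (es I c b (n + 1)) 0 with h3 | h3
        · obtain ⟨x, hx, hx0⟩ := intermediate_value_Icc' hle hcont.continuousOn
            (Set.mem_Icc.2 ⟨h3, h2⟩)
          exact ⟨x, fun _ => ⟨hx, hx0⟩⟩
        · rcases eq_or_lt_of_le h2 with h4 | h4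
          · exact ⟨n, fun _ => ⟨⟨le_refl _, hle⟩, h4.symm⟩⟩
          · have h5 : es I c b (n + 1) = 0 := by
              by_contra h6
              have h7 : 0 < es I c b (n + 1) := lt_of_le_of_ne h3 (Ne.symm h6)
              exact absurd h1 (not_le.2 (mul_pos h4 h7))
            exact ⟨n + 1, fun _ => ⟨⟨hle, le_refl _⟩, h5⟩⟩
    · exact ⟨0, fun h => absurd h hn⟩
  choose x hx using hz
  have h1 : S.card ≤ 2 * (S.image x).card := by
    refine Finset.card_le_mul_card_image S 2 fun y hy => ?_
    have h2 : (S.filter fun n => x n = y) ⊆ {⌊y⌋₊, ⌊y⌋₊ - 1} := by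
      intro n hn
      rw [Finset.mem_filter] at hn
      obtain ⟨hn1, rfl⟩ := hn
      obtain ⟨⟨h3, h4⟩, -⟩ := hx n hn1
      rw [Finset.mem_insert, Finset.mem_singleton]
      have h5 : n ≤ ⌊x n⌋₊ := Nat.le_floor h3
      have h6 : ⌊x n⌋₊ ≤ n + 1 := by
        have h7 : ⌊x n⌋₊ ≤ ⌊((n + 1 : ℕ) : ℝ)⌋₊ := Nat.floor_le_floor (by push_cast; exact h4)
        rwa [Nat.floor_natCast] at h7
      omega
    exact (Finset.card_le_card h2).trans Finset.card_le_two
  have h2 := zeros I.card I rfl hIpos c b (fun i hi => by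
    rw [hI, Finset.mem_filter] at hi
    exact hi.2) hbi (S.image x) (fun z hz => by
      rw [Finset.mem_image] at hz
      obtain ⟨n, hn, rfl⟩ := hz
      exact (hx n hn).2)
  omega

end Pool.Agent.N543.DS
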